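import Pool.Agent.W497.FS.Thms

/-!
# Random partial subdivisions

`ty` gives the type of a vertex, each simplex has at most two vertices of each type. The simplices with two
vertices of each of their types are the full ones. A combination with nonnegative coefficients.
-/

set_option autoImplicit false
set_option linter.unusedSectionVars false

noncomputable section

namespace Pool.Agent.W2helper25.BW

open Finset
open Pool.Agent.W497.FS (cl lam lkF mem_cl mem_lkF cl_of_subset fe Full)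

variable {α : Type*} [DecidableEq α] {m : ℕ} (ty : α → Fin m)

/-- the vertices of type `i` -/
def tp (σ : Finset α) (i : Fin m) : Finset α := σ.filter (fun v => ty v = i)

/-- the types with two vertices -/
def dt (σ : Finset α) : Finset (Fin m) := univ.filter (fun i => (tp ty σ i).card = 2)

/-- the vertices with types in `J` -/
def sb (σ : Finset α) (J : Finset (Fin m)) : Finset α := σ.filter (fun v => ty v ∈ J)

/-- at most two vertices of each type -/
def Thin (σ : Finset α) : Prop := ∀ i, (tp ty σ i).card ≤ 2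

/-- two vertices of each type which occurs -/
def Dbl (σ : Finset α) : Prop := ∀ v ∈ σ, ty v ∈ dt ty σ

variable {ty}

theorem mem_dt {σ : Finset α} {i : Fin m} : i ∈ dt ty σ ↔ (tp ty σ i).card = 2 := by
  rw [dt, mem_filter]
  exact ⟨fun h => h.2, fun h => ⟨mem_univ _, h⟩⟩

theorem mem_tp {σ : Finset α} {i : Fin m} {v : α} : v ∈ tp ty σ i ↔ v ∈ σ ∧ ty v = i := by
  rw [tp, mem_filter]

theorem mem_sb {σ : Finset α} {J : Finset (Fin m)} {v : α} : v ∈ sb ty σ J ↔ v ∈ σ ∧ ty v ∈ J := by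
  rw [sb, mem_filter]

theorem sb_sub {σ : Finset α} {J : Finset (Fin m)} : sb ty σ J ⊆ σ := filter_subset _ _

theorem tp_sb_mem {σ : Finset α} {J : Finset (Fin m)} {i : Fin m} (h : i ∈ J) : tp ty (sb ty σ J) i = tp ty σ i := by
  ext v
  rw [mem_tp, mem_tp, mem_sb]
  constructor
  · rintro ⟨⟨h1, -⟩, h3⟩
    exact ⟨h1, h3⟩
  · rintro ⟨h1, h3⟩
    exact ⟨⟨h1, by rw [h3]; exact h⟩, h3⟩

theorem tp_sb_not {σ : Finset α} {J : Finset (Fin m)} {i : Fin m} (h : i ∉ J) : tp ty (sb ty σ J) i = ∅ := by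
  rw [eq_empty_iff_forall_notMem]
  intro v hv
  rw [mem_tp, mem_sb] at hv
  exact h (hv.2 ▸ hv.1.2)

theorem dt_sb {σ : Finset α} {J : Finset (Fin m)} (hJ : J ⊆ dt ty σ) : dt ty (sb ty σ J) = J := by
  ext i
  rw [mem_dt]
  by_cases h : i ∈ J
  · rw [tp_sb_mem h]
    exact ⟨fun _ => h, fun _ => mem_dt.1 (hJ h)⟩
  · rw [tp_sb_not h]
    exact ⟨fun h' => absurd h' (by simp), fun h' => absurd h' h⟩

theorem dbl_sb {σ : Finset α} {J : Finset (Fin m)} (hJ : J ⊆ dt ty σ) : Dbl ty (sb ty σ J) := by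
  intro v hv
  rw [dt_sb hJ]
  exact (mem_sb.1 hv).2

theorem tp_mono {σ τ : Finset α} (h : σ ⊆ τ) (i : Fin m) : tp ty σ i ⊆ tp ty τ i := filter_subset_filter _ h

theorem thin_mono {σ τ : Finset α} (h : σ ⊆ τ) (hτ : Thin ty τ) : Thin ty σ :=
  fun i => (card_le_card (tp_mono h i)).trans (hτ i)

theorem tp_eq {σ T : Finset α} (hT : T ⊆ σ) (hσ : Thin ty σ) {i : Fin m} (hi : i ∈ dt ty T) :
    tp ty T i = tp ty σ i := by
  refine eq_of_subset_of_card_le (tp_mono hT i) ?_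
  rw [mem_dt.1 hi]
  exact hσ i

theorem dt_mono {σ T : Finset α} (hT : T ⊆ σ) (hσ : Thin ty σ) : dt ty T ⊆ dt ty σ := by
  intro i hi
  rw [mem_dt, ← tp_eq hT hσ hi]
  exact mem_dt.1 hi

theorem eq_sb {σ T : Finset α} (hT : T ⊆ σ) (hσ : Thin ty σ) (hd : Dbl ty T) : sb ty σ (dt ty T) = T := by
  ext v
  rw [mem_sb]
  constructor
  · rintro ⟨h1, h2⟩
    have h3 := tp_eq hT hσ h2
    have h4 : v ∈ tp ty σ (ty v) := mem_tp.2 ⟨h1, rfl⟩
    rw [← h3] at h4
    exact (mem_tp.1 h4).1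
  · intro h
    exact ⟨hT h, hd v h⟩

theorem dt_sdiff {σ T : Finset α} (hT : T ⊆ σ) (hσ : Thin ty σ) (hd : Dbl ty T) :
    dt ty (σ \ T) = dt ty σ \ dt ty T := by
  ext i
  rw [mem_sdiff, mem_dt, mem_dt]
  by_cases h : i ∈ dt ty T
  · have h1 : tp ty (σ \ T) i = ∅ := by
      rw [eq_empty_iff_forall_notMem]
      intro v hv
      rw [mem_tp, mem_sdiff] at hv
      have h2 : v ∈ tp ty σ i := mem_tp.2 ⟨hv.1.1, hv.2⟩
      rw [← tp_eq hT hσ h] at h2
      exact hv.1.2 (mem_tp.1 h2).1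
    rw [h1]
    exact ⟨fun h' => absurd h' (by simp), fun h' => absurd h h'.2⟩
  · have h1 : tp ty (σ \ T) i = tp ty σ i := by
      ext v
      rw [mem_tp, mem_tp, mem_sdiff]
      constructor
      · rintro ⟨⟨h1, -⟩, h3⟩
        exact ⟨h1, h3⟩
      · rintro ⟨h1, h3⟩
        exact ⟨⟨h1, fun h4 => h (h3 ▸ hd v h4)⟩, h3⟩
    rw [h1]
    exact ⟨fun h' => ⟨h', h⟩, fun h' => h'.1⟩

theorem dbl_card {T : Finset α} (hd : Dbl ty T) : T.card = 2 * (dt ty T).card := by
  have h := card_eq_sum_card_fiberwise (s := T) (t := dt ty T) (f := ty) fun x hx => hd x hx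
  have h2 : ∀ i ∈ dt ty T, (T.filter (fun v => ty v = i)).card = 2 := fun i hi => mem_dt.1 hi
  rw [h, sum_congr rfl h2, sum_const, smul_eq_mul, mul_comm]

/-! ### the coefficients -/

variable (ty) in
/-- the product of the values on the pairs -/
def dl (δ : Finset α → ℚ) (σ : Finset α) : ℚ := ∏ i ∈ dt ty σ, δ (tp ty σ i)

variable (ty) in
/-- the coefficients -/
def nu (δ : Finset α → ℚ) (q : Finset (Fin m) → Fin m → Finset α → ℚ) : ℕ → Finset α → ℚ
  | 0, _ => 1
  | j + 1, T => (-1) ^ (j + 1) * dl ty δ T +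
      ∑ i ∈ dt ty T, q ((dt ty T).erase i) i (tp ty T i) * nu δ q j (sb ty T ((dt ty T).erase i))

variable (ty) in
/-- the kernel -/
def gk (q : Finset (Fin m) → Fin m → Finset α → ℚ) (J : Finset (Fin m)) (ρ : Finset α) : ℚ :=
  if (dt ty ρ).card = 0 then 1 else if (dt ty ρ).card = 1 then ∑ i ∈ dt ty ρ, q J i (tp ty ρ i) else 0

theorem dl_sb {δ : Finset α → ℚ} {σ : Finset α} {J : Finset (Fin m)} (hJ : J ⊆ dt ty σ) :
    dl ty δ (sb ty σ J) = ∏ i ∈ J, δ (tp ty σ i) := by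
  rw [dl, dt_sb hJ]
  exact prod_congr rfl fun i hi => by rw [tp_sb_mem hi]

theorem nu_pos {δ : Finset α → ℚ} {q : Finset (Fin m) → Fin m → Finset α → ℚ} :
    ∀ (j : ℕ) (T : Finset α), (dt ty T).card = j → (∀ i ∈ dt ty T, 0 ≤ δ (tp ty T i) ∧
      ∀ J : Finset (Fin m), i ∉ J → δ (tp ty T i) ≤ q J i (tp ty T i)) →
      0 ≤ nu ty δ q j T ∧ (Even j → dl ty δ T ≤ nu ty δ q j T) := by
  intro j
  induction j with
  | zero =>
    intro T hT _
    refine ⟨by rw [nu]; exact zero_le_one, fun _ => ?_⟩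
    rw [nu, dl, card_eq_zero.1 hT, prod_empty]
  | succ j ih =>
    intro T hT hδ
    have hdl : 0 ≤ dl ty δ T := prod_nonneg fun i hi => (hδ i hi).1
    have hsub : ∀ i ∈ dt ty T, 0 ≤ nu ty δ q j (sb ty T ((dt ty T).erase i)) ∧
        (Even j → dl ty δ (sb ty T ((dt ty T).erase i)) ≤ nu ty δ q j (sb ty T ((dt ty T).erase i))) := by
      intro i hi
      have h1 := erase_subset i (dt ty T)
      refine ih _ ?_ ?_
      · rw [dt_sb h1, card_erase_of_mem hi, hT, Nat.add_sub_cancel]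
      · intro k hk
        rw [dt_sb h1] at hk
        rw [tp_sb_mem hk]
        exact hδ k (h1 hk)
    have hq : ∀ i ∈ dt ty T, δ (tp ty T i) ≤ q ((dt ty T).erase i) i (tp ty T i) := fun i hi =>
      (hδ i hi).2 _ (fun h => (mem_erase.1 h).1 rfl)
    have hterm : ∀ i ∈ dt ty T, 0 ≤ q ((dt ty T).erase i) i (tp ty T i) * nu ty δ q j (sb ty T ((dt ty T).erase i)) :=
      fun i hi => mul_nonneg ((hδ i hi).1.trans (hq i hi)) (hsub i hi).1
    have hS : 0 ≤ ∑ i ∈ dt ty T, q ((dt ty T).erase i) i (tp ty T i) * nu ty δ q j (sb ty T ((dt ty T).erase i)) :=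
      sum_nonneg hterm
    rcases Nat.even_or_odd (j + 1) with he | ho
    · have h1 : nu ty δ q (j + 1) T = dl ty δ T +
          ∑ i ∈ dt ty T, q ((dt ty T).erase i) i (tp ty T i) * nu ty δ q j (sb ty T ((dt ty T).erase i)) := by
        rw [nu, he.neg_one_pow, one_mul]
      rw [h1]
      exact ⟨by linarith, fun _ => by linarith⟩
    · refine ⟨?_, fun he => absurd ho (Nat.not_odd_iff_even.2 he)⟩
      have hj : Even j := by
        rcases Nat.even_or_odd j with h | h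
        · exact h
        · exact absurd ho (Nat.not_odd_iff_even.2 (by
            obtain ⟨a, ha⟩ := h
            exact ⟨a + 1, by omega⟩))
      have h1 : nu ty δ q (j + 1) T = - dl ty δ T +
          ∑ i ∈ dt ty T, q ((dt ty T).erase i) i (tp ty T i) * nu ty δ q j (sb ty T ((dt ty T).erase i)) := by
        rw [nu, ho.neg_one_pow, neg_one_mul]
      rw [h1]
      obtain ⟨i, hi⟩ : (dt ty T).Nonempty := card_pos.1 (by omega)
      have h2 := (hsub i hi).2 hj
      have h3 := single_le_sum (f := fun i => q ((dt ty T).erase i) i (tp ty T i) *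
        nu ty δ q j (sb ty T ((dt ty T).erase i))) hterm hi
      have h4 : dl ty δ T = δ (tp ty T i) * dl ty δ (sb ty T ((dt ty T).erase i)) := by
        rw [dl_sb (erase_subset i _), dl]
        exact (mul_prod_erase _ (fun i => δ (tp ty T i)) hi).symm
      have h5 : 0 ≤ dl ty δ (sb ty T ((dt ty T).erase i)) := by
        rw [dl_sb (erase_subset i _)]
        exact prod_nonneg fun k hk => (hδ k (erase_subset i _ hk)).1
      have h6 : dl ty δ T ≤ q ((dt ty T).erase i) i (tp ty T i) * nu ty δ q j (sb ty T ((dt ty T).erase i)) := by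
        rw [h4]
        exact mul_le_mul (hq i hi) h2 h5 ((hδ i hi).1.trans (hq i hi))
      have h7 : q ((dt ty T).erase i) i (tp ty T i) * nu ty δ q j (sb ty T ((dt ty T).erase i)) ≤
          ∑ i ∈ dt ty T, q ((dt ty T).erase i) i (tp ty T i) * nu ty δ q j (sb ty T ((dt ty T).erase i)) := h3
      linarith

/-- subsets with at most one element less -/
theorem sum_powerset_top {ι : Type*} [DecidableEq ι] (D : Finset ι) (φ : Finset ι → ℚ)
    (h : ∀ J ⊆ D, 2 ≤ (D \ J).card → φ J = 0) :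
    ∑ J ∈ D.powerset, φ J = φ D + ∑ i ∈ D, φ (D.erase i) := by
  have h1 : ∑ i ∈ D, φ (D.erase i) = ∑ J ∈ D.image (fun i => D.erase i), φ J := by
    rw [sum_image]
    intro a ha b hb hab
    by_contra hne
    have h2 : a ∈ D.erase b := mem_erase.2 ⟨hne, ha⟩
    have h3 : D.erase a = D.erase b := hab
    rw [← h3] at h2
    exact (mem_erase.1 h2).1 rfl
  have h2 : D ∉ D.image (fun i => D.erase i) := by
    intro h'
    obtain ⟨i, hi, h3⟩ := mem_image.1 h'
    have h4 : i ∈ D.erase i := by rw [h3]; exact hi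
    exact (mem_erase.1 h4).1 rfl
  rw [h1, ← sum_insert h2]
  symm
  refine sum_subset ?_ ?_
  · intro J hJ
    rw [mem_insert, mem_image] at hJ
    rcases hJ with rfl | ⟨i, _, rfl⟩
    · exact mem_powerset_self _
    · exact mem_powerset.2 (erase_subset _ _)
  · intro J hJ hn
    rw [mem_powerset] at hJ
    refine h J hJ ?_
    by_contra hc
    rw [not_le] at hc
    apply hn
    rw [mem_insert, mem_image]
    have h5 : (D \ J).card = 0 ∨ (D \ J).card = 1 := by omega
    rcases h5 with h5 | h5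
    · left
      rw [card_eq_zero, sdiff_eq_empty_iff_subset] at h5
      exact subset_antisymm hJ h5
    · right
      obtain ⟨i, hi⟩ := card_eq_one.1 h5
      have hi' : i ∈ D \ J := by rw [hi]; exact mem_singleton_self i
      refine ⟨i, (mem_sdiff.1 hi').1, ?_⟩
      ext x
      rw [mem_erase]
      constructor
      · rintro ⟨hx1, hx2⟩
        by_contra hx3
        have : x ∈ D \ J := mem_sdiff.2 ⟨hx2, hx3⟩
        rw [hi, mem_singleton] at this
        exact hx1 this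
      · intro hx
        refine ⟨?_, hJ hx⟩
        rintro rfl
        exact (mem_sdiff.1 hi').2 hx

theorem tp_sdiff_sb {σ : Finset α} {J : Finset (Fin m)} {i : Fin m} (hi : i ∉ J) :
    tp ty (σ \ sb ty σ J) i = tp ty σ i := by
  ext v
  rw [mem_tp, mem_tp, mem_sdiff, mem_sb]
  constructor
  · rintro ⟨⟨h1, -⟩, h2⟩
    exact ⟨h1, h2⟩
  · rintro ⟨h1, h2⟩
    exact ⟨⟨h1, fun h => hi (h2 ▸ h.2)⟩, h2⟩

/-- the expansion of the product -/
theorem dl_expand {δ : Finset α → ℚ} {q : Finset (Fin m) → Fin m → Finset α → ℚ} {σ : Finset α}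
    (hσ : Thin ty σ) :
    dl ty δ σ = ∑ J ∈ (dt ty σ).powerset, ((-1) ^ J.card * nu ty δ q J.card (sb ty σ J)) *
      gk ty q J (σ \ sb ty σ J) := by
  have hdt : ∀ J ⊆ dt ty σ, dt ty (σ \ sb ty σ J) = dt ty σ \ J := by
    intro J hJ
    rw [dt_sdiff sb_sub hσ (dbl_sb hJ), dt_sb hJ]
  rw [sum_powerset_top]
  · have h0 : gk ty q (dt ty σ) (σ \ sb ty σ (dt ty σ)) = 1 := by
      rw [gk, hdt _ (subset_refl _), Finset.sdiff_self, card_empty, if_pos rfl]
    rw [h0, mul_one]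
    have h1 : ∀ i ∈ dt ty σ, (-1 : ℚ) ^ ((dt ty σ).erase i).card *
        nu ty δ q ((dt ty σ).erase i).card (sb ty σ ((dt ty σ).erase i)) *
        gk ty q ((dt ty σ).erase i) (σ \ sb ty σ ((dt ty σ).erase i)) =
        (-1) ^ ((dt ty σ).card - 1) * (q ((dt ty σ).erase i) i (tp ty σ i) *
          nu ty δ q ((dt ty σ).card - 1) (sb ty σ ((dt ty σ).erase i))) := by
      intro i hi
      have h2 : dt ty (σ \ sb ty σ ((dt ty σ).erase i)) = {i} := by
        rw [hdt _ (erase_subset _ _)]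
        exact Finset.sdiff_erase_self hi
      have h3 : gk ty q ((dt ty σ).erase i) (σ \ sb ty σ ((dt ty σ).erase i)) =
          q ((dt ty σ).erase i) i (tp ty σ i) := by
        rw [gk, h2, card_singleton, if_neg one_ne_zero, if_pos rfl, sum_singleton,
          tp_sdiff_sb (fun h => (mem_erase.1 h).1 rfl)]
      rw [h3, card_erase_of_mem hi]
      ring
    rw [sum_congr rfl h1, ← mul_sum]
    rcases Nat.eq_zero_or_pos (dt ty σ).card with h0 | h0
    · rw [h0, nu, dl, card_eq_zero.1 h0, prod_empty, sum_empty]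
      simp
    · obtain ⟨j, hj⟩ : ∃ j, (dt ty σ).card = j + 1 := ⟨(dt ty σ).card - 1, by omega⟩
      have h3 : dt ty (sb ty σ (dt ty σ)) = dt ty σ := dt_sb (subset_refl _)
      rw [hj, Nat.add_sub_cancel, nu, h3]
      have h4 : dl ty δ (sb ty σ (dt ty σ)) = dl ty δ σ := by
        rw [dl_sb (subset_refl _)]
        rfl
      have h5 : ∀ i ∈ dt ty σ, q ((dt ty σ).erase i) i (tp ty (sb ty σ (dt ty σ)) i) *
          nu ty δ q j (sb ty (sb ty σ (dt ty σ)) ((dt ty σ).erase i)) =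
          q ((dt ty σ).erase i) i (tp ty σ i) * nu ty δ q j (sb ty σ ((dt ty σ).erase i)) := by
        intro i hi
        rw [tp_sb_mem hi]
        congr 2
        ext v
        rw [mem_sb, mem_sb, mem_sb]
        exact ⟨fun h => ⟨h.1.1, h.2⟩, fun h => ⟨⟨h.1, erase_subset _ _ h.2⟩, h.2⟩⟩
      rw [h4, sum_congr rfl h5]
      have h6 : ((-1 : ℚ) ^ (j + 1)) * (-1) ^ (j + 1) = 1 := by
        rw [← mul_pow]
        norm_num
      have h7 : ((-1 : ℚ) ^ (j + 1)) = - (-1) ^ j := by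
        rw [pow_succ]
        ring
      linear_combination (- dl ty δ σ) * h6 + (- (∑ i ∈ dt ty σ, q ((dt ty σ).erase i) i (tp ty σ i) *
        nu ty δ q j (sb ty σ ((dt ty σ).erase i)))) * h7
  · intro J hJ' hJ
    rw [gk, hdt J hJ', if_neg (by omega), if_neg (by omega), mul_zero]

/-! ### the sum over the simplices -/

variable {H : SimpleGraph α} {W : Finset α}

theorem lk_disj {κ ρ : Finset α} (hρ : ρ ∈ cl H (lkF H W κ)) : Disjoint ρ κ := by
  rw [Finset.disjoint_left]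
  intro x hx hxκ
  exact ((mem_lkF.1 ((mem_cl.1 hρ).1 hx)).2 x hxκ).ne rfl

theorem lk_union {κ ρ : Finset α} (hκ : κ ∈ cl H W) (hρ : ρ ∈ cl H (lkF H W κ)) : ρ ∪ κ ∈ cl H W := by
  have hκ' := mem_cl.1 hκ
  rw [mem_cl] at hρ
  rw [mem_cl]
  refine ⟨Finset.union_subset (fun x hx => (mem_lkF.1 (hρ.1 hx)).1) hκ'.1, fun x hx y hy hxy => ?_⟩
  rcases Finset.mem_union.1 hx with hx | hx <;> rcases Finset.mem_union.1 hy with hy | hy
  · exact hρ.2 x hx y hy hxy
  · exact ((mem_lkF.1 (hρ.1 hx)).2 y hy).symm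
  · exact (mem_lkF.1 (hρ.1 hy)).2 x hx
  · exact hκ'.2 x hx y hy hxy

/-- faces containing `κ` correspond to faces of the link of `κ` -/
theorem sum_sup' {κ : Finset α} (hκ : κ ∈ cl H W) (g : Finset α → ℚ) :
    ∑ σ ∈ (cl H W).filter (fun σ => κ ⊆ σ), g σ = ∑ ρ ∈ cl H (lkF H W κ), g (ρ ∪ κ) := by
  refine Finset.sum_bij' (fun σ _ => σ \ κ) (fun ρ _ => ρ ∪ κ) ?_ ?_ ?_ ?_ ?_
  · intro σ hσ
    obtain ⟨h1, h2⟩ := Finset.mem_filter.1 hσ
    rw [mem_cl] at h1
    rw [mem_cl]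
    refine ⟨fun x hx => ?_, fun x hx y hy hxy => ?_⟩
    · obtain ⟨hx1, hx2⟩ := Finset.mem_sdiff.1 hx
      exact mem_lkF.2 ⟨h1.1 hx1, fun y hy => h1.2 y (h2 hy) x hx1 (fun h => hx2 (h ▸ hy))⟩
    · exact h1.2 x (Finset.mem_sdiff.1 hx).1 y (Finset.mem_sdiff.1 hy).1 hxy
  · intro ρ hρ
    exact Finset.mem_filter.2 ⟨lk_union hκ hρ, Finset.subset_union_right⟩
  · intro σ hσ
    exact Finset.sdiff_union_of_subset (Finset.mem_filter.1 hσ).2
  · intro ρ hρ
    rw [Finset.union_sdiff_right]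
    exact Finset.sdiff_eq_self_of_disjoint (lk_disj hρ)
  · intro σ hσ
    rw [Finset.sdiff_union_of_subset (Finset.mem_filter.1 hσ).2]

variable (ty H W) in
/-- the simplices with two vertices of each of their types -/
def FF : Finset (Finset α) := open scoped Classical in (cl H W).filter (fun T => Dbl ty T)

theorem mem_FF {T : Finset α} : T ∈ FF ty H W ↔ T ∈ cl H W ∧ Dbl ty T := by
  classical
  rw [FF, mem_filter]

/-- the expansion for one simplex, as a sum over the subsets of the simplex -/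
theorem dl_expand' {δ : Finset α → ℚ} {q : Finset (Fin m) → Fin m → Finset α → ℚ} {σ : Finset α}
    (hσ : σ ∈ cl H W) (ht : Thin ty σ) :
    dl ty δ σ = ∑ T ∈ (FF ty H W).filter (fun T => T ⊆ σ),
      ((-1) ^ (dt ty T).card * nu ty δ q (dt ty T).card T) * gk ty q (dt ty T) (σ \ T) := by
  rw [dl_expand (q := q) ht]
  refine Finset.sum_bij' (fun J _ => sb ty σ J) (fun T _ => dt ty T) ?_ ?_ ?_ ?_ ?_
  · intro J hJ
    rw [mem_powerset] at hJ
    exact mem_filter.2 ⟨mem_FF.2 ⟨cl_of_subset hσ sb_sub, dbl_sb hJ⟩, sb_sub⟩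
  · intro T hT
    exact mem_powerset.2 (dt_mono (mem_filter.1 hT).2 ht)
  · intro J hJ
    exact dt_sb (mem_powerset.1 hJ)
  · intro T hT
    obtain ⟨h1, h2⟩ := mem_filter.1 hT
    exact eq_sb h2 ht (mem_FF.1 h1).2
  · intro J hJ
    rw [mem_powerset] at hJ
    rw [dt_sb hJ]

/-- the types in the link -/
theorem dt_link {T ρ : Finset α} (ht : Thin ty (ρ ∪ T)) (hdis : Disjoint ρ T) {k : Fin m} (hk' : k ∈ dt ty T) :
    tp ty ρ k = ∅ := by
  rw [eq_empty_iff_forall_notMem]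
  intro v hv
  have h3 := tp_eq (subset_union_right (s₁ := ρ)) ht hk'
  have h6 := mem_tp.1 hv
  have h7 : v ∈ tp ty (ρ ∪ T) k := mem_tp.2 ⟨mem_union_left _ h6.1, h6.2⟩
  rw [← h3] at h7
  exact disjoint_left.1 hdis h6.1 (mem_tp.1 h7).1

theorem sign_sub {a b : ℕ} (h : b ≤ a) : (-1 : ℚ) ^ a * (-1) ^ b = (-1) ^ (a - b) := by
  obtain ⟨r, rfl⟩ := Nat.exists_eq_add_of_le h
  rw [Nat.add_sub_cancel_left, pow_add]
  have : ((-1 : ℚ) ^ b) * (-1) ^ b = 1 := by
    rw [← mul_pow]; norm_num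
  linear_combination ((-1 : ℚ) ^ r) * this

/-- **the inequality** -/
theorem comb (hthin : ∀ σ ∈ cl H W, Thin ty σ) (δ : Finset α → ℚ) (q : Finset (Fin m) → Fin m → Finset α → ℚ)
    (hδ : ∀ σ ∈ cl H W, ∀ i ∈ dt ty σ, 0 ≤ δ (tp ty σ i) ∧
      ∀ J : Finset (Fin m), i ∉ J → δ (tp ty σ i) ≤ q J i (tp ty σ i))
    (hA : ∀ T ∈ cl H W, Dbl ty T → (dt ty T).card < m → 0 ≤ (-1 : ℚ) ^ (m - (dt ty T).card) *
      ∑ ρ ∈ cl H (lkF H W T), (-1 / 2 : ℚ) ^ ρ.card * gk ty q (dt ty T) ρ) :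
    0 ≤ (-1 : ℚ) ^ m * ∑ σ ∈ cl H W, (-1 / 2 : ℚ) ^ σ.card * dl ty δ σ := by
  have e1 : ∑ σ ∈ cl H W, (-1 / 2 : ℚ) ^ σ.card * dl ty δ σ = ∑ T ∈ FF ty H W,
      ((-1) ^ (dt ty T).card * nu ty δ q (dt ty T).card T) * ∑ ρ ∈ cl H (lkF H W T),
        (-1 / 2 : ℚ) ^ (ρ ∪ T).card * gk ty q (dt ty T) ρ := by
    have e2 : ∑ σ ∈ cl H W, (-1 / 2 : ℚ) ^ σ.card * dl ty δ σ = ∑ σ ∈ cl H W, ∑ T ∈ (FF ty H W).filter (fun T => T ⊆ σ),
        (-1 / 2 : ℚ) ^ σ.card * (((-1) ^ (dt ty T).card * nu ty δ q (dt ty T).card T) *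
          gk ty q (dt ty T) (σ \ T)) := by
      refine sum_congr rfl fun σ hσ => ?_
      rw [dl_expand' (q := q) hσ (hthin σ hσ), mul_sum]
    rw [e2, Finset.sum_comm' (t' := FF ty H W) (s' := fun T => (cl H W).filter (fun σ => T ⊆ σ))
      (fun σ T => by
        rw [mem_filter, mem_filter]
        tauto)]
    refine sum_congr rfl fun T hT => ?_
    rw [sum_sup' (mem_FF.1 hT).1 (fun σ => (-1 / 2 : ℚ) ^ σ.card * (((-1) ^ (dt ty T).card *
      nu ty δ q (dt ty T).card T) * gk ty q (dt ty T) (σ \ T))), mul_sum]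
    refine sum_congr rfl fun ρ hρ => ?_
    rw [Finset.union_sdiff_right, Finset.sdiff_eq_self_of_disjoint (lk_disj hρ)]
    ring
  rw [e1, mul_sum]
  refine sum_nonneg fun T hT => ?_
  obtain ⟨hTc, hd⟩ := mem_FF.1 hT
  have hthT := hthin T hTc
  have hnu : 0 ≤ nu ty δ q (dt ty T).card T := (nu_pos _ T rfl fun i hi => hδ T hTc i hi).1
  have hle : (dt ty T).card ≤ m := by
    have := card_le_univ (dt ty T)
    rwa [Fintype.card_fin] at this
  have hxT : ∀ ρ ∈ cl H (lkF H W T), (-1 / 2 : ℚ) ^ (ρ ∪ T).card = (1 / 4) ^ (dt ty T).card * (-1 / 2) ^ ρ.card := by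
    intro ρ hρ
    rw [card_union_of_disjoint (lk_disj hρ), dbl_card hd, pow_add, pow_mul]
    norm_num
    ring
  have hsign : (-1 : ℚ) ^ m * (-1) ^ (dt ty T).card = (-1) ^ (m - (dt ty T).card) := sign_sub hle
  have key : 0 ≤ (-1 : ℚ) ^ (m - (dt ty T).card) * ∑ ρ ∈ cl H (lkF H W T),
      (-1 / 2 : ℚ) ^ (ρ ∪ T).card * gk ty q (dt ty T) ρ := by
    have e3 : ∑ ρ ∈ cl H (lkF H W T), (-1 / 2 : ℚ) ^ (ρ ∪ T).card * gk ty q (dt ty T) ρ =
        (1 / 4) ^ (dt ty T).card * ∑ ρ ∈ cl H (lkF H W T), (-1 / 2 : ℚ) ^ ρ.card * gk ty q (dt ty T) ρ := by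
      rw [mul_sum]
      refine sum_congr rfl fun ρ hρ => ?_
      rw [hxT ρ hρ]
      ring
    rw [e3]
    rcases Nat.lt_or_ge (dt ty T).card m with hlt | hge
    · have h7 := mul_nonneg (show (0 : ℚ) ≤ (1 / 4) ^ (dt ty T).card by positivity) (hA T hTc hd hlt)
      refine h7.trans_eq ?_
      ring
    · have hm : (dt ty T).card = m := le_antisymm hle hge
      have h1 : cl H (lkF H W T) = {∅} := by
        ext ρ
        rw [mem_singleton]
        constructor
        · intro hρ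
          rw [eq_empty_iff_forall_notMem]
          intro v hv
          have h2 : ty v ∈ dt ty T := by
            have h3 : dt ty T = univ := by
              rw [← card_eq_iff_eq_univ, hm, Fintype.card_fin]
            rw [h3]
            exact mem_univ _
          have h4 := dt_link (hthin _ (lk_union hTc hρ)) (lk_disj hρ) h2
          exact absurd (mem_tp.2 ⟨hv, rfl⟩ : v ∈ tp ty ρ (ty v)) (by rw [h4]; exact notMem_empty _)
        · rintro rfl
          exact Pool.Agent.W497.FS.empty_mem_cl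
      rw [h1, sum_singleton, hm, Nat.sub_self]
      have h2 : (dt ty (∅ : Finset α)).card = 0 := by
        rw [card_eq_zero, eq_empty_iff_forall_notMem]
        intro i hi
        rw [mem_dt, tp, filter_empty, card_empty] at hi
        omega
      rw [gk, if_pos h2, card_empty]
      positivity
  have h8 := mul_nonneg hnu key
  refine h8.trans_eq ?_
  rw [← hsign]
  ring

end Pool.Agent.W2helper25.BW
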