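import Pool.Agent.W2helper25.BW.Main

/-!
# Counting cuts
-/

set_option autoImplicit false
set_option linter.unusedSectionVars false

noncomputable section

namespace Pool.Agent.W2helper25.BW

open Finset

variable {n : ℕ}

/-- all the sets of vertices -/
theorem crf_all {u v : Fin n} (huv : u ≠ v) :
    crf (Finset.univ : Finset (Finset (Fin n))) id {u, v} = 1 / 2 := by
  classical
  have h1 : ((univ : Finset (Finset (Fin n))).filter (fun X => (({u, v} : Finset (Fin n)) ∩ X).card = 1)).card =
      ((univ : Finset (Finset (Fin n))).filter (fun X => ¬ (({u, v} : Finset (Fin n)) ∩ X).card = 1)).card := by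
    have hmem : ∀ X : Finset (Fin n), (u ∈ symmDiff X {u} ↔ u ∉ X) ∧ (v ∈ symmDiff X {u} ↔ v ∈ X) := by
      intro X
      constructor
      · rw [mem_symmDiff, mem_singleton]
        tauto
      · rw [mem_symmDiff, mem_singleton]
        have : v ≠ u := huv.symm
        tauto
    refine card_nbij' (fun X => symmDiff X {u}) (fun X => symmDiff X {u}) ?_ ?_ ?_ ?_
    · intro X hX
      rw [mem_coe, mem_filter, card_inter_pair huv] at hX ⊢
      rw [(hmem X).1, (hmem X).2]
      exact ⟨mem_univ _, by tauto⟩
    · intro X hX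
      rw [mem_coe, mem_filter, card_inter_pair huv] at hX ⊢
      rw [(hmem X).1, (hmem X).2]
      exact ⟨mem_univ _, by tauto⟩
    · intro X _
      exact symmDiff_symmDiff_cancel_right _ _
    · intro X _
      exact symmDiff_symmDiff_cancel_right _ _
  have h2 := card_filter_add_card_filter_not (s := (univ : Finset (Finset (Fin n))))
    (fun X => (({u, v} : Finset (Fin n)) ∩ X).card = 1)
  rw [← h1] at h2
  have h3 : (0 : ℚ) < (univ : Finset (Finset (Fin n))).card := by
    have := card_pos.2 (univ_nonempty : (univ : Finset (Finset (Fin n))).Nonempty)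
    exact_mod_cast this
  rw [crf, div_eq_div_iff h3.ne' (by norm_num)]
  simp only [id]
  have h4 : (((univ : Finset (Finset (Fin n))).filter
      (fun X => (({u, v} : Finset (Fin n)) ∩ X).card = 1)).card : ℚ) +
      ((univ : Finset (Finset (Fin n))).filter (fun X => (({u, v} : Finset (Fin n)) ∩ X).card = 1)).card =
      (univ : Finset (Finset (Fin n))).card := by exact_mod_cast h2
  linarith

/-- the `r`-subsets which contain exactly one of two elements -/
theorem card_sep {S : Finset ℕ} {a b r : ℕ} (ha : a ∈ S) (hb : b ∈ S) (hab : a ≠ b) (hr : 0 < r) :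
    ((S.powersetCard r).filter (fun R => ¬ (a ∈ R ↔ b ∈ R))).card = 2 * (S.card - 2).choose (r - 1) := by
  have one : ∀ a b : ℕ, a ∈ S → b ∈ S → a ≠ b →
      ((S.powersetCard r).filter (fun R => a ∈ R ∧ b ∉ R)).card = (S.card - 2).choose (r - 1) := by
    intro a b ha hb hab
    have h1 : (S.powersetCard r).filter (fun R => a ∈ R ∧ b ∉ R) =
        (((S.erase a).erase b).powersetCard (r - 1)).image (fun R => insert a R) := by
      ext R
      rw [mem_filter, mem_powersetCard, mem_image]
      constructor
      · rintro ⟨⟨h1, h2⟩, h3, h4⟩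
        refine ⟨R.erase a, mem_powersetCard.2 ⟨fun x hx => ?_, by rw [card_erase_of_mem h3, h2]⟩, insert_erase h3⟩
        rw [mem_erase] at hx
        rw [mem_erase, mem_erase]
        exact ⟨fun h => h4 (h ▸ hx.2), hx.1, h1 hx.2⟩
      · rintro ⟨R', hR', rfl⟩
        rw [mem_powersetCard] at hR'
        have h5 : a ∉ R' := fun h => by
          have := hR'.1 h
          rw [mem_erase, mem_erase] at this
          exact this.2.1 rfl
        have h6 : b ∉ R' := fun h => by
          have := hR'.1 h
          rw [mem_erase] at this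
          exact this.1 rfl
        refine ⟨⟨insert_subset ha fun x hx => ?_, ?_⟩, mem_insert_self _ _, ?_⟩
        · have := hR'.1 hx
          rw [mem_erase, mem_erase] at this
          exact this.2.2
        · rw [card_insert_of_notMem h5, hR'.2]
          omega
        · rw [mem_insert, not_or]
          exact ⟨hab.symm, h6⟩
    rw [h1, card_image_of_injOn, card_powersetCard, card_erase_of_mem (mem_erase.2 ⟨hab.symm, hb⟩),
      card_erase_of_mem ha]
    · congr 1
    · intro R hR R' hR' h
      rw [mem_coe, mem_powersetCard] at hR hR'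
      have h5 : ∀ R, R ⊆ (S.erase a).erase b → a ∉ R := fun R hR h => by
        have := hR h
        rw [mem_erase, mem_erase] at this
        exact this.2.1 rfl
      have h7 := congrArg (fun R => R.erase a) h
      simp only at h7
      rwa [erase_insert (h5 R hR.1), erase_insert (h5 R' hR'.1)] at h7
  have h2 : (S.powersetCard r).filter (fun R => ¬ (a ∈ R ↔ b ∈ R)) =
      (S.powersetCard r).filter (fun R => a ∈ R ∧ b ∉ R) ∪ (S.powersetCard r).filter (fun R => b ∈ R ∧ a ∉ R) := by
    ext R
    rw [mem_union, mem_filter, mem_filter, mem_filter]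
    tauto
  rw [h2, card_union_of_disjoint, one a b ha hb hab, one b a hb ha hab.symm]
  · omega
  · rw [disjoint_left]
    intro R h1 h2
    rw [mem_filter] at h1 h2
    exact h1.2.2 h2.2.1

/-- unions of half of the colour classes -/
theorem crf_half {c : Fin n → ℕ} {u v : Fin n} {r : ℕ} (hr : 0 < r) (hu : c u < 2 * r) (hv : c v < 2 * r)
    (huv : c u ≠ c v) :
    crf ((range (2 * r)).powersetCard r) (fun R => univ.filter (fun x => c x ∈ R)) {u, v} =
      (r : ℚ) / (2 * r - 1) := by
  classical
  have hne : u ≠ v := fun h => huv (by rw [h])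
  have h1 : ((range (2 * r)).powersetCard r).filter
      (fun R => (({u, v} : Finset (Fin n)) ∩ univ.filter (fun x => c x ∈ R)).card = 1) =
      ((range (2 * r)).powersetCard r).filter (fun R => ¬ (c u ∈ R ↔ c v ∈ R)) := by
    refine filter_congr fun R _ => ?_
    rw [card_inter_pair hne, mem_filter, mem_filter]
    constructor
    · intro h h'
      exact h ⟨fun h1 => ⟨mem_univ _, h'.1 h1.2⟩, fun h1 => ⟨mem_univ _, h'.2 h1.2⟩⟩
    · intro h h'
      exact h ⟨fun h1 => (h'.1 ⟨mem_univ _, h1⟩).2, fun h1 => (h'.2 ⟨mem_univ _, h1⟩).2⟩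
  rw [crf, h1, card_sep (mem_range.2 hu) (mem_range.2 hv) huv hr, card_powersetCard, card_range]
  obtain ⟨k, rfl⟩ : ∃ k, r = k + 1 := ⟨r - 1, by omega⟩
  have h2 : (2 * (k + 1) - 2).choose (k + 1 - 1) = Nat.centralBinom k := by
    rw [Nat.centralBinom]
    congr 1
  have h3 : (2 * (k + 1)).choose (k + 1) = Nat.centralBinom (k + 1) := rfl
  have h4 := Nat.succ_mul_centralBinom_succ k
  have h5 : (0 : ℚ) < Nat.centralBinom (k + 1) := by
    have := Nat.centralBinom_pos (k + 1)
    exact_mod_cast this
  rw [h2, h3]
  have h6 : (((k + 1 : ℕ) : ℚ)) * (Nat.centralBinom (k + 1) : ℚ) = 2 * (2 * k + 1) * Nat.centralBinom k := by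
    exact_mod_cast h4
  have h7 : (2 * ((k + 1 : ℕ) : ℚ) - 1) ≠ 0 := by
    push_cast
    have : (0 : ℚ) ≤ k := Nat.cast_nonneg k
    linarith
  rw [div_eq_div_iff h5.ne' h7, h6]
  push_cast
  ring

end Pool.Agent.W2helper25.BW
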