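import Pool.Agent.R782.Bal.Class
import Pool.Agent.N496.LT.E1
import Pool.Agent.R703.CW.Main

/-!
# Deleting edges without common triangles from a flag sphere

Let the flag complex of `G` be a homology sphere of dimension `2 l - 1` and let `D` be a set of edges no two
of which are contained in a triangle. If the `ℓ²`-homology of the right-angled Coxeter group of `G \ D` vanishes
above the degree `l` then `(-1)^l χ(W_(G \ D)) ≥ 0`: subdividing the edges of `D` gives a homology sphere, and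
the midpoints change neither the `ℓ²`-homology nor the Euler characteristic.
-/

set_option autoImplicit false
set_option linter.unusedSectionVars false

noncomputable section

namespace Pool.Agent.W2helper25.BW

open Pool.Agent.W907.SG Pool.Agent.W907.SM Pool.Agent.R782.Bal
open Pool.Agent.TH652.Above (HSph singer_of_above chi_sign lv_img lv_univ lv_set)
open Pool.Agent.N496.LT (sd e1)
open Pool.Agent.W497.FS (cl lam lkF mem_cl mem_lkF cl_of_subset fe fe_erase fe_singleton Full lam_join)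
open Pool.Agent.R703.CW (chiW_eq mem_cl_univ chi_filter)

/-- no triangle of `G` contains two edges of `D` -/
def NoTri {V : Type} (G D : SimpleGraph V) : Prop :=
  ∀ a b c, D.Adj a b → D.Adj a c → b ≠ c → ¬ G.Adj b c

/-- the graph `D` without the edge `s t`, with one more vertex -/
def dn {n : ℕ} (D : SimpleGraph (Fin n)) (s t : Fin n) : SimpleGraph (Fin (n + 1)) where
  Adj x y := ∃ a b, x = Fin.castSucc a ∧ y = Fin.castSucc b ∧ D.Adj a b ∧ s(a, b) ≠ s(s, t)
  symm := ⟨by
    rintro x y ⟨a, b, h1, h2, h3, h4⟩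
    exact ⟨b, a, h2, h1, h3.symm, by rwa [Sym2.eq_swap]⟩⟩
  loopless := ⟨by
    rintro x ⟨a, b, h1, h2, h3, -⟩
    rw [h1] at h2
    rw [Fin.castSucc_injective _ h2] at h3
    exact D.loopless.irrefl _ h3⟩

variable {n : ℕ} {G D : SimpleGraph (Fin n)} {s t : Fin n}

theorem dn_cast {a b : Fin n} : (dn D s t).Adj (Fin.castSucc a) (Fin.castSucc b) ↔ D.Adj a b ∧ s(a, b) ≠ s(s, t) := by
  constructor
  · rintro ⟨a', b', h1, h2, h3, h4⟩
    rw [Fin.castSucc_injective _ h1, Fin.castSucc_injective _ h2]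
    exact ⟨h3, h4⟩
  · rintro ⟨h3, h4⟩
    exact ⟨a, b, rfl, rfl, h3, h4⟩

theorem dn_last {y : Fin (n + 1)} : ¬ (dn D s t).Adj (Fin.last n) y := by
  rintro ⟨a, b, h1, -⟩
  exact (Fin.castSucc_lt_last a).ne h1.symm

theorem sd_cast {a b : Fin n} : (sd G s t).Adj (Fin.castSucc a) (Fin.castSucc b) ↔ G.Adj a b ∧ s(a, b) ≠ s(s, t) := by
  constructor
  · rintro (⟨a', b', h1, h2, h3, h4⟩ | ⟨h, -⟩ | ⟨h, -⟩)
    · rw [Fin.castSucc_injective _ h1, Fin.castSucc_injective _ h2]
      exact ⟨h3, h4⟩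
    · exact absurd h (Fin.castSucc_lt_last a).ne
    · exact absurd h (Fin.castSucc_lt_last b).ne
  · rintro ⟨h3, h4⟩
    exact Or.inl ⟨a, b, rfl, rfl, h3, h4⟩

theorem sd_last {b : Fin n} : (sd G s t).Adj (Fin.last n) (Fin.castSucc b) ↔ (b = s ∨ b = t ∨ (G.Adj s b ∧ G.Adj t b)) := by
  constructor
  · rintro (⟨a', b', h1, h2, h3, h4⟩ | ⟨-, b', h, h'⟩ | ⟨h, -⟩)
    · exact absurd h1 (Fin.castSucc_lt_last a').ne'
    · rw [Fin.castSucc_injective _ h]
      exact h'
    · exact absurd h (Fin.castSucc_lt_last b).ne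
  · intro h
    exact Or.inr (Or.inl ⟨rfl, b, rfl, h⟩)

theorem dn_le (h : D ≤ G) : dn D s t ≤ sd G s t := by
  rintro x y ⟨a, b, h1, h2, h3, h4⟩
  exact Or.inl ⟨a, b, h1, h2, h h3, h4⟩

theorem dn_noTri (h : NoTri G D) : NoTri (sd G s t) (dn D s t) := by
  rintro x y z ⟨a, b, rfl, rfl, h3, h4⟩ ⟨a', c, h1, rfl, h5, h6⟩ hyz hA
  obtain rfl := Fin.castSucc_injective _ h1
  rw [sd_cast] at hA
  exact h a b c h3 h5 (fun e => hyz (by rw [e])) hA.1

theorem sdiff_cast (hst : D.Adj s t) {a b : Fin n} :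
    (sd G s t \ dn D s t).Adj (Fin.castSucc a) (Fin.castSucc b) ↔ (G \ D).Adj a b := by
  rw [SimpleGraph.sdiff_adj, SimpleGraph.sdiff_adj, sd_cast, dn_cast]
  constructor
  · rintro ⟨⟨h1, h2⟩, h3⟩
    exact ⟨h1, fun h => h3 ⟨h, h2⟩⟩
  · rintro ⟨h1, h2⟩
    have h3 : s(a, b) ≠ s(s, t) := by
      intro e
      rw [Sym2.eq_iff] at e
      rcases e with ⟨rfl, rfl⟩ | ⟨rfl, rfl⟩
      · exact h2 hst
      · exact h2 hst.symm
    exact ⟨⟨h1, h3⟩, fun h => h2 h.1⟩

theorem sdiff_last {b : Fin n} :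
    (sd G s t \ dn D s t).Adj (Fin.last n) (Fin.castSucc b) ↔ (b = s ∨ b = t ∨ (G.Adj s b ∧ G.Adj t b)) := by
  rw [SimpleGraph.sdiff_adj, sd_last]
  exact ⟨fun h => h.1, fun h => ⟨h, dn_last⟩⟩

/-- the number of edges of `D` decreases -/
theorem dn_card (hst : D.Adj s t) : (dn D s t).edgeSet.ncard + 1 = D.edgeSet.ncard := by
  have h1 : (dn D s t).edgeSet = Sym2.map Fin.castSucc '' (D.edgeSet \ {s(s, t)}) := by
    ext e
    induction e using Sym2.ind with
    | _ x y =>
      rw [SimpleGraph.mem_edgeSet]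
      constructor
      · rintro ⟨a, b, rfl, rfl, h3, h4⟩
        exact ⟨s(a, b), ⟨h3, h4⟩, rfl⟩
      · rintro ⟨e, ⟨h3, h4⟩, h5⟩
        induction e using Sym2.ind with
        | _ a b =>
          rw [Sym2.map_mk, Sym2.eq_iff] at h5
          rcases h5 with ⟨h5, h6⟩ | ⟨h5, h6⟩
          · exact ⟨a, b, h5.symm, h6.symm, h3, h4⟩
          · exact ⟨b, a, h6.symm, h5.symm, (show D.Adj a b from h3).symm, by
              intro h; exact h4 (by rw [Set.mem_singleton_iff, Sym2.eq_swap]; exact h)⟩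
  rw [h1, Set.ncard_image_of_injective _ (Sym2.map.injective (Fin.castSucc_injective n))]
  exact Set.ncard_sdiff_singleton_add_one ((SimpleGraph.mem_edgeSet D).2 hst) (Set.toFinite _)

/-- two vertices which are not adjacent -/
theorem lv_two {V : Type} [Finite V] (H : SimpleGraph V) {u v : V} (huv : u ≠ v) (h : ¬ H.Adj u v) (i : ℕ) :
    LV (H.induce ({u, v} : Set V)) i := by
  refine lsusp ↥({u, v} : Set V) _ ⟨u, by simp⟩ ⟨v, by simp⟩ i (by simpa using huv) (fun h' => h h') ?_
  rintro ⟨w, hw⟩ h1 h2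
  rcases hw with rfl | hw
  · exact absurd rfl h1
  · rw [Set.mem_singleton_iff] at hw
    subst hw
    exact absurd rfl h2

/-- the `ℓ²`-homology of the subdivided complex -/
theorem lv_sd (hst : D.Adj s t) (hDG : D ≤ G) (hT : NoTri G D) {l : ℕ}
    (h : ∀ i, l ≤ i → LV (G \ D) i) (i : ℕ) (hi : l ≤ i) : LV (sd G s t \ dn D s t) i := by
  have hGst := hDG hst
  have hne : s ≠ t := hst.ne
  refine lv_relsub (sd G s t \ dn D s t) {Fin.last n} (fun _ => {Fin.castSucc s, Fin.castSucc t})
    (fun x => if x = Fin.last n then 1 else 0) l ?_ ?_ ?_ ?_ i hi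
  · rintro x rfl y hy
    rcases hy with rfl | hy
    · refine ⟨sdiff_last.2 (Or.inl rfl), ?_⟩
      simp [(Fin.castSucc_lt_last s).ne]
    · rw [Set.mem_singleton_iff] at hy
      subst hy
      refine ⟨sdiff_last.2 (Or.inr (Or.inl rfl)), ?_⟩
      simp [(Fin.castSucc_lt_last t).ne]
  · rintro x rfl w hw hwl y hy
    induction w using Fin.lastCases with
    | last => exact absurd hw (SimpleGraph.irrefl _)
    | cast b =>
      rw [sdiff_last] at hw
      have hbs : b ≠ s := fun e => hwl (by rw [e]; exact Or.inl rfl)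
      have hbt : b ≠ t := fun e => hwl (by rw [e]; exact Or.inr rfl)
      rcases hw with hw | hw | ⟨hw1, hw2⟩
      · exact absurd hw hbs
      · exact absurd hw hbt
      · rcases hy with rfl | hy
        · rw [sdiff_cast hst, SimpleGraph.sdiff_adj]
          exact ⟨hw1.symm, fun h' => hT s t b hst h'.symm (Ne.symm hbt) hw2⟩
        · rw [Set.mem_singleton_iff] at hy
          subst hy
          rw [sdiff_cast hst, SimpleGraph.sdiff_adj]
          exact ⟨hw2.symm, fun h' => hT t s b hst.symm h'.symm (Ne.symm hbs) hw1⟩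
  · rintro x - j
    refine lv_two _ (fun e => hne (Fin.castSucc_injective _ e)) ?_ j
    rw [sdiff_cast hst, SimpleGraph.sdiff_adj]
    exact fun h' => h'.2 hst
  · intro j hj
    have h1 := h j hj
    rw [← lv_univ] at h1
    have h2 := (lv_img (G := sd G s t \ dn D s t) (H := G \ D) Fin.castSucc Set.univ
      (fun a _ b _ e => Fin.castSucc_injective _ e) (fun a _ b _ => sdiff_cast hst) j).1 h1
    refine lv_set ?_ h2
    ext x
    induction x using Fin.lastCases with
    | last => simp [(Fin.castSucc_lt_last _).ne]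
    | cast a => simp

/-! ### the Euler characteristic -/

/-- images of cliques -/
theorem lam_map {α β : Type} [DecidableEq α] [DecidableEq β] (H : SimpleGraph β) (f : α ↪ β) (W : Finset α) :
    lam H (W.map f) = lam (H.comap f) W := by
  rw [lam, lam, fe, fe]
  symm
  refine Finset.sum_bij (fun σ _ => σ.map f) ?_ ?_ ?_ ?_
  · intro σ hσ
    rw [mem_cl] at hσ ⊢
    refine ⟨Finset.map_subset_map.2 hσ.1, fun x hx y hy hxy => ?_⟩
    obtain ⟨a, ha, rfl⟩ := Finset.mem_map.1 hx
    obtain ⟨b, hb, rfl⟩ := Finset.mem_map.1 hy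
    exact hσ.2 a ha b hb fun h => hxy (by rw [h])
  · intro σ _ τ _ h
    exact Finset.map_injective _ h
  · intro σ hσ
    obtain ⟨h1, h2⟩ := mem_cl.1 hσ
    obtain ⟨τ, hτ, rfl⟩ := Finset.subset_map_iff.1 h1
    refine ⟨τ, mem_cl.2 ⟨hτ, fun a ha b hb hab => ?_⟩, rfl⟩
    exact h2 (f a) (Finset.mem_map_of_mem f ha) (f b) (Finset.mem_map_of_mem f hb) fun h => hab (f.injective h)
  · intro σ _
    rw [Finset.card_map]

/-- a vertex whose link is a suspension does not contribute -/
theorem lam_susp {α : Type} [DecidableEq α] (H : SimpleGraph α) {W : Finset α} {x u v : α} (hx : x ∈ W)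
    (hu : u ∈ W) (hv : v ∈ W) (huv : u ≠ v) (hn : ¬ H.Adj u v) (hxu : H.Adj x u) (hxv : H.Adj x v)
    (h : ∀ w ∈ W, H.Adj x w → w ≠ u → w ≠ v → H.Adj w u ∧ H.Adj w v) : lam H W = lam H (W.erase x) := by
  have h1 := fe_erase (H := H) hx (-1 / 2 : ℚ)
  have h2 : Pool.Agent.W497.FS.lk H W x = {u, v} ∪ ((Pool.Agent.W497.FS.lk H W x).erase u).erase v := by
    ext w
    rw [Finset.mem_union, Finset.mem_erase, Finset.mem_erase, Pool.Agent.W497.FS.mem_lk, Finset.mem_insert,
      Finset.mem_singleton]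
    constructor
    · rintro ⟨h3, h4⟩
      by_cases h5 : w = u
      · exact Or.inl (Or.inl h5)
      · by_cases h6 : w = v
        · exact Or.inl (Or.inr h6)
        · exact Or.inr ⟨h6, h5, h3, h4⟩
    · rintro ((rfl | rfl) | ⟨-, -, h3⟩)
      · exact ⟨hu, hxu⟩
      · exact ⟨hv, hxv⟩
      · exact h3
  have h3 : Full H {u, v} (((Pool.Agent.W497.FS.lk H W x).erase u).erase v) := by
    intro a ha b hb
    rw [Finset.mem_erase, Finset.mem_erase, Pool.Agent.W497.FS.mem_lk] at hb
    have h4 := h b hb.2.2.1 hb.2.2.2 hb.2.1 hb.1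
    rw [Finset.mem_insert, Finset.mem_singleton] at ha
    rcases ha with rfl | rfl
    · exact h4.1.symm
    · exact h4.2.symm
  have h4 : lam H ({u, v} : Finset α) = 0 := by
    have h5 := fe_erase (H := H) (W := {u, v}) (Finset.mem_insert_self u _) (-1 / 2 : ℚ)
    have h6 : ({u, v} : Finset α).erase u = {v} := by
      rw [Finset.erase_insert]
      simpa using huv
    have h7 : Pool.Agent.W497.FS.lk H ({u, v} : Finset α) u = ∅ := by
      rw [Finset.eq_empty_iff_forall_notMem]
      intro w hw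
      rw [Pool.Agent.W497.FS.mem_lk, Finset.mem_insert, Finset.mem_singleton] at hw
      rcases hw with ⟨rfl | rfl, hw⟩
      · exact hw.ne rfl
      · exact hn hw
    rw [h6, h7, fe_singleton, Pool.Agent.W497.FS.fe_empty] at h5
    rw [lam, h5]
    norm_num
  have h8 : lam H (Pool.Agent.W497.FS.lk H W x) = 0 := by
    rw [h2, lam_join h3, h4, zero_mul]
  rw [lam, h1]
  rw [lam] at h8
  rw [h8, mul_zero, add_zero, lam]

theorem chi_sd (hst : D.Adj s t) (hDG : D ≤ G) (hT : NoTri G D) :
    chiW (sd G s t \ dn D s t) = chiW (G \ D) := by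
  have hGst := hDG hst
  rw [chiW_eq, chiW_eq]
  have h1 : lam (sd G s t \ dn D s t) Finset.univ = lam (sd G s t \ dn D s t) (Finset.univ.erase (Fin.last n)) := by
    refine lam_susp _ (u := Fin.castSucc s) (v := Fin.castSucc t) (Finset.mem_univ _) (Finset.mem_univ _)
      (Finset.mem_univ _) (fun e => hst.ne (Fin.castSucc_injective _ e)) ?_ (sdiff_last.2 (Or.inl rfl))
      (sdiff_last.2 (Or.inr (Or.inl rfl))) ?_
    · rw [sdiff_cast hst, SimpleGraph.sdiff_adj]
      exact fun h' => h'.2 hst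
    · intro w _ hw h2 h3
      induction w using Fin.lastCases with
      | last => exact absurd hw (SimpleGraph.irrefl _)
      | cast b =>
        rw [sdiff_last] at hw
        have hbs : b ≠ s := fun e => h2 (by rw [e])
        have hbt : b ≠ t := fun e => h3 (by rw [e])
        rcases hw with hw | hw | ⟨hw1, hw2⟩
        · exact absurd hw hbs
        · exact absurd hw hbt
        · rw [sdiff_cast hst, SimpleGraph.sdiff_adj, sdiff_cast hst, SimpleGraph.sdiff_adj]
          exact ⟨⟨hw1.symm, fun h' => hT s t b hst h'.symm (Ne.symm hbt) hw2⟩,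
            ⟨hw2.symm, fun h' => hT t s b hst.symm h'.symm (Ne.symm hbs) hw1⟩⟩
  have h2 : (Finset.univ.erase (Fin.last n) : Finset (Fin (n + 1))) = Finset.univ.map Fin.castSuccEmb := by
    ext x
    rw [Finset.mem_erase, Finset.mem_map]
    constructor
    · rintro ⟨hx, -⟩
      exact ⟨x.castPred hx, Finset.mem_univ _, by simp⟩
    · rintro ⟨a, -, rfl⟩
      exact ⟨(Fin.castSucc_lt_last a).ne, Finset.mem_univ _⟩
  rw [h1, h2, lam_map]
  congr 1
  ext a b
  exact sdiff_cast hst

/-- **the inequality for the sphere with deleted edges** -/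
theorem cd_del {l : ℕ} : ∀ (k n : ℕ) (G D : SimpleGraph (Fin n)), D.edgeSet.ncard = k → D ≤ G → NoTri G D →
    HSph (2 * l) G → (∀ i, l + 1 ≤ i → LV (G \ D) i) → 0 ≤ (-1 : ℚ) ^ l * chiW (G \ D) := by
  intro k
  induction k with
  | zero =>
    intro n G D hk hDG _ hS h
    have hD : D = ⊥ := by
      rw [Set.ncard_eq_zero (Set.toFinite _)] at hk
      exact SimpleGraph.edgeSet_eq_empty.1 hk
    subst hD
    rw [sdiff_bot] at h ⊢
    exact chi_sign G fun i hi => singer_of_above hS (fun i hi => h i (by omega) _ _) i (by omega)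
  | succ k ih =>
    intro n G D hk hDG hT hS h
    obtain ⟨s, t, hst⟩ : ∃ s t, D.Adj s t := by
      by_contra hc
      push Not at hc
      have hD : D = ⊥ := by
        ext a b
        exact iff_of_false (hc a b) (by simp)
      subst hD
      rw [SimpleGraph.edgeSet_bot, Set.ncard_empty] at hk
      omega
    rw [← chi_sd hst hDG hT]
    refine ih (n + 1) (sd G s t) (dn D s t) ?_ (dn_le hDG) (dn_noTri hT) (e1 _ n G s t (hDG hst) hS)
      (lv_sd hst hDG hT h)
    have := dn_card hst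
    omega

end Pool.Agent.W2helper25.BW
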