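import Pool.Agent.W2helper25.BW.Comb
import Pool.Agent.W2helper25.BW.Del
import Pool.Agent.R782.Bal.WtLnk
import Pool.Agent.N504.RS.Brid

/-!
# Balanced spheres with heavy paired colours
-/

set_option autoImplicit false
set_option linter.unusedSectionVars false

noncomputable section

namespace Pool.Agent.W2helper25.BW

open Pool.Agent.W907.SG Pool.Agent.W907.SM Pool.Agent.R782.Bal
open Pool.Agent.TH652.Above (HSph singer_of_above chi_sign lv_img lv_univ lv_set)
open Pool.Agent.W497.FS (cl lam lkF mem_cl mem_lkF cl_of_subset fe Full)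
open Pool.Agent.R703.CW (chiW_eq mem_cl_univ chi_filter card_le_of_hsph)
open Pool.Agent.N504.RS.Two (HSph2 clq mem_clq hsph_clq)

variable {n : ℕ} {G : SimpleGraph (Fin n)}

/-- an order embedding with image the link -/
def lf (G : SimpleGraph (Fin n)) (T : Finset (Fin n)) : Fin (lkF G Finset.univ T).card ↪o Fin n :=
  (lkF G Finset.univ T).orderEmbOfFin rfl

theorem range_lf (T : Finset (Fin n)) : Set.range (lf G T) = lk G T := by
  rw [lf, Finset.range_orderEmbOfFin]
  ext v
  rw [Finset.mem_coe, mem_lkF]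
  exact ⟨fun h u hu => (h.2 u hu).symm, fun h => ⟨Finset.mem_univ _, fun u hu => (h u hu).symm⟩⟩

theorem map_lf (T : Finset (Fin n)) : Finset.univ.map (lf G T).toEmbedding = lkF G Finset.univ T := by
  rw [← Finset.coe_inj, Finset.coe_map, Finset.coe_univ, Set.image_univ]
  have h := Finset.range_orderEmbOfFin (lkF G Finset.univ T) rfl
  exact h

/-- links as graphs on `Fin k` -/
theorem hsph_lf {N : ℕ} (hS : HSph N G) (T : Finset (Fin n)) (hT : G.IsClique (T : Set (Fin n))) :
    HSph (N - T.card) (G.comap (lf G T)) := by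
  classical
  set f := lf G T with hf
  have hfT : ∀ x, ∀ u ∈ T, G.Adj (f x) u := by
    intro x
    have h1 : f x ∈ lk G T := by
      rw [← range_lf]
      exact ⟨x, rfl⟩
    exact h1
  intro S' hS' i
  obtain ⟨S, hSd⟩ : ∃ S : Finset (Fin n), S = T ∪ S'.map f.toEmbedding := ⟨_, rfl⟩
  have hdis : Disjoint T (S'.map f.toEmbedding) := by
    rw [Finset.disjoint_left]
    intro a ha ha2
    obtain ⟨b, hb, rfl⟩ := Finset.mem_map.1 ha2
    exact (hfT b _ ha).ne rfl
  have hcard : S.card = T.card + S'.card := by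
    rw [hSd, Finset.card_union_of_disjoint hdis, Finset.card_map]
  have hSc : G.IsClique (S : Set (Fin n)) := by
    intro a ha b hb hab
    rw [Finset.mem_coe, hSd, Finset.mem_union, Finset.mem_map] at ha hb
    rcases ha with ha | ⟨a', ha', rfl⟩ <;> rcases hb with hb | ⟨b', hb', rfl⟩
    · exact hT ha hb hab
    · exact (hfT b' a ha).symm
    · exact hfT a' b hb
    · exact hS' ha' hb' fun h => hab (by rw [h])
  have hfin : Fintype ↥(lk (G.comap f) S') := Fintype.ofFinite _
  have e1 := tr ↥(lk (G.comap f) S') (Fin (lkF G Finset.univ T).card) ℝ ℝ (G.comap f)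
    ((G.comap f).induce (lk (G.comap f) S')) (fun _ => - LinearMap.id) Subtype.val
    (fun _ _ h => h) (fun _ _ => Iff.rfl) i
  have e2 := tr ↥(lk (G.comap f) S') (Fin n) ℝ ℝ G
    ((G.comap f).induce (lk (G.comap f) S')) (fun _ => - LinearMap.id)
    (fun x => f x.1) (fun _ _ h => f.strictMono h) (fun _ _ => Iff.rfl) i
  rw [Subtype.range_coe] at e1
  have hr : Set.range (fun x : ↥(lk (G.comap f) S') => f x.1) = lk G S := by
    ext v
    constructor
    · rintro ⟨x, rfl⟩ u hu
      rw [hSd, Finset.mem_union, Finset.mem_map] at hu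
      rcases hu with hu | ⟨u', hu', rfl⟩
      · exact hfT x.1 u hu
      · exact x.2 u' hu'
    · intro hv
      have hvT : v ∈ lk G T := fun u hu => hv u (by rw [hSd]; exact Finset.mem_union_left _ hu)
      rw [← range_lf] at hvT
      obtain ⟨x, rfl⟩ := hvT
      refine ⟨⟨x, fun u hu => hv (f u) ?_⟩, rfl⟩
      rw [hSd, Finset.mem_union, Finset.mem_map]
      exact Or.inr ⟨u, hu, rfl⟩
  rw [hr] at e2
  have e3 := hS S hSc i
  rw [e2] at e3
  rw [e1, e3]
  have h1 := card_le_of_hsph hS S hSc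
  by_cases h : i + S.card = N
  · rw [if_pos h, if_pos (by omega)]
  · rw [if_neg h, if_neg (by omega)]

/-- subgraphs of links are embedded -/
theorem emb_lf {m l : ℕ} (hS2 : HSph2 (2 * m) G) (T : Finset (Fin n)) (hT : G.IsClique (T : Set (Fin n)))
    (hl : 2 * m ≤ 2 * l + T.card) (H : SimpleGraph (Fin (lkF G Finset.univ T).card)) (hH : H ≤ G.comap (lf G T)) :
    Emb l H := by
  classical
  set f := lf G T with hf
  have hfT : ∀ x, ∀ u ∈ T, G.Adj (f x) u := by
    intro x
    have h1 : f x ∈ lk G T := by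
      rw [← range_lf]
      exact ⟨x, rfl⟩
    exact h1
  refine Emb.sphere (Pool.Agent.Y131.KS.lk (clq G) T) f.toEmbedding (n := 2 * m - T.card) (by omega)
    (hsph2_link _ _ _ (hsph_clq hS2) (mem_clq.2 hT)) ?_
  intro S hS
  rw [Pool.Agent.Y131.KS.mem_lk]
  constructor
  · rw [Finset.disjoint_left]
    intro v hv hvT
    obtain ⟨u, _, rfl⟩ := Finset.mem_map.mp hv
    exact (hfT u _ hvT).ne rfl
  · rw [mem_clq]
    intro x hx y hy hxy
    rw [Finset.mem_coe, Finset.mem_union] at hx hy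
    rcases hx with hx | hx
    · obtain ⟨u, hu, rfl⟩ := Finset.mem_map.mp hx
      rcases hy with hy | hy
      · obtain ⟨u', hu', rfl⟩ := Finset.mem_map.mp hy
        exact hH (hS hu hu' fun e => hxy (by rw [e]))
      · exact hfT u y hy
    · rcases hy with hy | hy
      · obtain ⟨u', hu', rfl⟩ := Finset.mem_map.mp hy
        exact (hfT u' x hx).symm
      · exact hT hx hy hxy

/-! ### types and cuts -/

variable {m : ℕ}

/-- the edges with two vertices of the same type, except for the edges of type `i` with one end in `X` -/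
def pd {V : Type} (G : SimpleGraph V) (ty : V → Fin m) (i : Fin m) (X : Finset V) : SimpleGraph V where
  Adj u v := G.Adj u v ∧ ty u = ty v ∧ (ty u = i → (u ∈ X ↔ v ∈ X))
  symm := ⟨fun _ _ h => ⟨h.1.symm, h.2.1.symm, fun h' => (h.2.2 (h.2.1.trans h')).symm⟩⟩
  loopless := ⟨fun _ h => h.1.ne rfl⟩

variable {ty : Fin n → Fin m}

/-- no monochromatic triangles -/
def NoMono (G : SimpleGraph (Fin n)) (ty : Fin n → Fin m) : Prop :=
  ∀ a b c, G.Adj a b → G.Adj a c → G.Adj b c → ty a = ty b → ty a = ty c → False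

/-- a clique has at most two vertices of each type -/
theorem thin_of (hc : NoMono G ty) {σ : Finset (Fin n)} (hσ : σ ∈ cl G Finset.univ) : Thin ty σ := by
  intro i
  by_contra hlt
  rw [not_le] at hlt
  obtain ⟨a, b, c, ha, hb, hc', hab, hac, hbc⟩ := Finset.two_lt_card_iff.1 hlt
  rw [mem_tp] at ha hb hc'
  have h := (mem_cl.1 hσ).2
  exact hc a b c (h a ha.1 b hb.1 hab) (h a ha.1 c hc'.1 hac) (h b hb.1 c hc'.1 hbc)
    (ha.2.trans hb.2.symm) (ha.2.trans hc'.2.symm)

/-- the simplices without edges in `pd` -/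
def Good (ty : Fin n → Fin m) (i : Fin m) (X : Finset (Fin n)) (ρ : Finset (Fin n)) : Prop :=
  dt ty ρ ⊆ {i} ∧ (i ∈ dt ty ρ → (tp ty ρ i ∩ X).card = 1)

theorem card_inter_pair {u v : Fin n} (huv : u ≠ v) (X : Finset (Fin n)) :
    (({u, v} : Finset (Fin n)) ∩ X).card = 1 ↔ ¬ (u ∈ X ↔ v ∈ X) := by
  by_cases hu : u ∈ X <;> by_cases hv : v ∈ X
  · rw [Finset.insert_inter_of_mem hu, Finset.singleton_inter_of_mem hv, Finset.card_pair huv]
    simp [hu, hv]
  · rw [Finset.insert_inter_of_mem hu, Finset.singleton_inter_of_notMem hv]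
    simp [hu, hv]
  · rw [Finset.insert_inter_of_notMem hu, Finset.singleton_inter_of_mem hv]
    simp [hu, hv]
  · rw [Finset.insert_inter_of_notMem hu, Finset.singleton_inter_of_notMem hv]
    simp [hu, hv]

open Classical in
theorem cl_pd (hc : NoMono G ty) (T : Finset (Fin n)) (i : Fin m) (X : Finset (Fin n)) :
    cl (G \ pd G ty i X) (lkF G Finset.univ T) = (cl G (lkF G Finset.univ T)).filter (fun ρ => Good ty i X ρ) := by
  ext ρ
  rw [Finset.mem_filter, mem_cl, mem_cl]
  constructor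
  · rintro ⟨h1, h2⟩
    have h3 : ∀ x ∈ ρ, ∀ y ∈ ρ, x ≠ y → ty x = ty y → ty x = i ∧ ¬ (x ∈ X ↔ y ∈ X) := by
      intro x hx y hy hxy ht
      have h4 := h2 x hx y hy hxy
      rw [SimpleGraph.sdiff_adj] at h4
      by_contra hcon
      refine h4.2 ⟨h4.1, ht, fun h5 => ?_⟩
      by_contra h6
      exact hcon ⟨h5, h6⟩
    refine ⟨⟨h1, fun x hx y hy hxy => (h2 x hx y hy hxy).1⟩, fun k hk => ?_, fun hi => ?_⟩
    · rw [mem_dt] at hk
      obtain ⟨u, v, huv, he⟩ := Finset.card_eq_two.1 hk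
      have hu : u ∈ tp ty ρ k := by rw [he]; simp
      have hv : v ∈ tp ty ρ k := by rw [he]; simp
      rw [mem_tp] at hu hv
      rw [Finset.mem_singleton, ← hu.2]
      exact (h3 u hu.1 v hv.1 huv (hu.2.trans hv.2.symm)).1
    · rw [mem_dt] at hi
      obtain ⟨u, v, huv, he⟩ := Finset.card_eq_two.1 hi
      have hu : u ∈ tp ty ρ i := by rw [he]; simp
      have hv : v ∈ tp ty ρ i := by rw [he]; simp
      rw [mem_tp] at hu hv
      rw [he, card_inter_pair huv]
      exact (h3 u hu.1 v hv.1 huv (hu.2.trans hv.2.symm)).2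
  · rintro ⟨⟨h1, h2⟩, h3, h4⟩
    refine ⟨h1, fun x hx y hy hxy => ?_⟩
    rw [SimpleGraph.sdiff_adj]
    refine ⟨h2 x hx y hy hxy, fun h => ?_⟩
    have hρ : ρ ∈ cl G Finset.univ := mem_cl.2 ⟨Finset.subset_univ _, h2⟩
    have h5 : ({x, y} : Finset (Fin n)) ⊆ tp ty ρ (ty x) := by
      intro z hz
      rw [Finset.mem_insert, Finset.mem_singleton] at hz
      rw [mem_tp]
      rcases hz with rfl | rfl
      · exact ⟨hx, rfl⟩
      · exact ⟨hy, h.2.1.symm⟩
    have h6 := Finset.card_le_card h5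
    rw [Finset.card_pair hxy] at h6
    have h7 : ty x ∈ dt ty ρ := mem_dt.2 (le_antisymm (thin_of hc hρ _) h6)
    have h8 : ty x = i := Finset.mem_singleton.1 (h3 h7)
    have h9 : ({x, y} : Finset (Fin n)) = tp ty ρ (ty x) :=
      Finset.eq_of_subset_of_card_le h5 (by rw [mem_dt.1 h7, Finset.card_pair hxy])
    have h10 := h4 (h8 ▸ h7)
    rw [← h8, ← h9, card_inter_pair hxy] at h10
    exact h10 (h.2.2 h8)

/-- **the links** -/
theorem link_ineq (hS : HSph (2 * m) G) (hS2 : HSph2 (2 * m) G) (hc : NoMono G ty)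
    (T : Finset (Fin n)) (hT : T ∈ cl G Finset.univ) (hd : Dbl ty T) (i : Fin m) (X : Finset (Fin n)) :
    0 ≤ (-1 : ℚ) ^ (m - (dt ty T).card) * lam (G \ pd G ty i X) (lkF G Finset.univ T) := by
  classical
  have hTc : G.IsClique (T : Set (Fin n)) := (mem_cl_univ T).1 hT
  obtain ⟨l, hl⟩ : ∃ l, l = m - (dt ty T).card := ⟨_, rfl⟩
  have hcard := dbl_card hd
  have hle : (dt ty T).card ≤ m := by
    have := Finset.card_le_univ (dt ty T)
    rwa [Fintype.card_fin] at this
  rw [← hl]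
  set f := lf G T with hf
  have hfT : ∀ x, ∀ u ∈ T, G.Adj (f x) u := by
    intro x
    have h1 : f x ∈ lk G T := by
      rw [← range_lf]
      exact ⟨x, rfl⟩
    exact h1
  -- types in the link
  have hty : ∀ x, ty (f x) ∉ dt ty T := by
    intro x hx
    rw [mem_dt] at hx
    obtain ⟨u, v, huv, he⟩ := Finset.card_eq_two.1 hx
    have hu : u ∈ tp ty T (ty (f x)) := by rw [he]; simp
    have hv : v ∈ tp ty T (ty (f x)) := by rw [he]; simp
    rw [mem_tp] at hu hv
    exact hc _ _ _ (hfT x u hu.1) (hfT x v hv.1) (hTc hu.1 hv.1 huv) hu.2.symm hv.2.symm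
  have hH : HSph (2 * l) (G.comap f) := by
    have h1 := hsph_lf hS T hTc
    rwa [show 2 * m - T.card = 2 * l by omega] at h1
  set D : SimpleGraph (Fin (lkF G Finset.univ T).card) := (pd G ty i X).comap f with hD
  have hDG : D ≤ G.comap f := fun a b h => h.1
  have hNT : NoTri (G.comap f) D := by
    intro a b c hab hac hbc hA
    exact hc _ _ _ (show G.Adj (f a) (f b) from hab.1) (show G.Adj (f a) (f c) from hac.1)
      (show G.Adj (f b) (f c) from hA) hab.2.1 hac.2.1
  -- the colouring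
  have hcc : Fintype.card {k : Fin m // k ∉ dt ty T} = l := by
    rw [Fintype.card_subtype_compl, Fintype.card_fin, Fintype.card_coe, hl]
  set e : {k : Fin m // k ∉ dt ty T} ≃ Fin l := Fintype.equivFinOfCardEq hcc with he
  set c : Fin (lkF G Finset.univ T).card → Fin (l + 1) := fun x =>
    if ty (f x) = i ∧ f x ∈ X then Fin.last l else Fin.castSucc (e ⟨ty (f x), hty x⟩) with hcd
  have hcp : ∀ a b, (G.comap f \ D).Adj a b → c a ≠ c b := by
    intro a b hab hcab
    rw [SimpleGraph.sdiff_adj] at hab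
    have hG : G.Adj (f a) (f b) := hab.1
    rw [hcd] at hcab
    simp only at hcab
    by_cases ha : ty (f a) = i ∧ f a ∈ X
    · rw [if_pos ha] at hcab
      by_cases hb : ty (f b) = i ∧ f b ∈ X
      · exact hab.2 ⟨hG, ha.1.trans hb.1.symm, fun _ => iff_of_true ha.2 hb.2⟩
      · rw [if_neg hb] at hcab
        exact (Fin.castSucc_lt_last _).ne hcab.symm
    · rw [if_neg ha] at hcab
      by_cases hb : ty (f b) = i ∧ f b ∈ X
      · rw [if_pos hb] at hcab
        exact (Fin.castSucc_lt_last _).ne hcab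
      · rw [if_neg hb] at hcab
        have h1 := e.injective (Fin.castSucc_injective _ hcab)
        have h2 : ty (f a) = ty (f b) := congrArg Subtype.val h1
        exact hab.2 ⟨hG, h2, fun h3 => iff_of_false (fun h4 => ha ⟨h3, h4⟩) (fun h4 => hb ⟨h2.symm.trans h3, h4⟩)⟩
  have hE : Emb l (G.comap f \ D) := emb_lf hS2 T hTc (by omega) _ (fun a b h => h.1)
  have h1 := cd_del D.edgeSet.ncard _ (G.comap f) D rfl hDG hNT hH
    (fun j hj _ _ => l2_emb hE c hcp j (by omega))
  rw [chiW_eq] at h1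
  have h2 : lam (G.comap f \ D) Finset.univ = lam (G \ pd G ty i X) (lkF G Finset.univ T) := by
    have h3 := lam_map (G \ pd G ty i X) (lf G T).toEmbedding Finset.univ
    rw [map_lf T] at h3
    exact h3.symm
  rw [h2] at h1
  exact h1

/-- the proportion of the sets in the family which separate the two elements of `e` -/
def crf {ι : Type} (F : Finset ι) (Y : ι → Finset (Fin n)) (e : Finset (Fin n)) : ℚ :=
  ((F.filter (fun t => (e ∩ Y t).card = 1)).card : ℚ) / F.card

/-- the kernel as an average -/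
theorem gk_avg {ι : Type} (hc : NoMono G ty) (F : Fin m → Finset ι) (Y : ι → Finset (Fin n))
    (hF : ∀ i, (F i).Nonempty)
    (p : Finset (Fin m) → Fin m → ℚ) (hp : ∀ J : Finset (Fin m), J.card < m → ∑ i ∈ Jᶜ, p J i = 1)
    {T ρ : Finset (Fin n)} (hT : T ∈ cl G Finset.univ) (hρ : ρ ∈ cl G (lkF G Finset.univ T))
    (hm : (dt ty T).card < m) [∀ i X, Decidable (Good ty i X ρ)] :
    gk ty (fun J i e => p J i * crf (F i) Y e) (dt ty T) ρ = ∑ i ∈ (dt ty T)ᶜ, p (dt ty T) i *
      (((F i).filter (fun t => Good ty i (Y t) ρ)).card / (F i).card) := by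
  classical
  have hFc : ∀ i, ((F i).card : ℚ) ≠ 0 := fun i => by
    have := Finset.card_pos.2 (hF i)
    positivity
  by_cases hc0 : (dt ty ρ).card = 0
  · rw [gk, if_pos hc0, ← hp _ hm]
    refine Finset.sum_congr rfl fun i _ => ?_
    have h1 : (F i).filter (fun t => Good ty i (Y t) ρ) = F i := by
      refine Finset.filter_true_of_mem fun X _ => ?_
      have h2 := Finset.card_eq_zero.1 hc0
      refine ⟨by rw [h2]; exact Finset.empty_subset _, fun h => ?_⟩
      rw [h2] at h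
      exact absurd h (Finset.notMem_empty _)
    rw [h1, div_self (hFc i), mul_one]
  · by_cases hc1 : (dt ty ρ).card = 1
    · rw [gk, if_neg hc0, if_pos hc1]
      obtain ⟨k, hk⟩ := Finset.card_eq_one.1 hc1
      have hkρ : k ∈ dt ty ρ := by rw [hk]; exact Finset.mem_singleton_self _
      have hkT : k ∉ dt ty T := by
        intro h
        have h1 := dt_link (thin_of hc (lk_union hT hρ)) (lk_disj hρ) h
        rw [mem_dt, h1, Finset.card_empty] at hkρ
        omega
      rw [hk, Finset.sum_singleton, Finset.sum_eq_single k]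
      · have h1 : (F k).filter (fun t => Good ty k (Y t) ρ) = (F k).filter (fun t => (tp ty ρ k ∩ Y t).card = 1) :=
          Finset.filter_congr fun X _ => ⟨fun h => h.2 hkρ, fun h => ⟨by rw [hk], fun _ => h⟩⟩
        rw [h1, crf]
      · intro i _ hik
        have h1 : (F i).filter (fun t => Good ty i (Y t) ρ) = ∅ := by
          refine Finset.filter_false_of_mem fun X _ h => ?_
          exact hik (Finset.mem_singleton.1 (h.1 hkρ)).symm
        rw [h1]
        simp
      · intro h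
        exact absurd (Finset.mem_compl.2 hkT) h
    · rw [gk, if_neg hc0, if_neg hc1]
      symm
      refine Finset.sum_eq_zero fun i _ => ?_
      have h1 : (F i).filter (fun t => Good ty i (Y t) ρ) = ∅ := by
        refine Finset.filter_false_of_mem fun X _ h => ?_
        have h3 := Finset.card_le_card h.1
        rw [Finset.card_singleton] at h3
        omega
      rw [h1]
      simp

/-- **the averaged inequality for the links** -/
theorem link_avg {ι : Type} (hS : HSph (2 * m) G) (hS2 : HSph2 (2 * m) G) (hc : NoMono G ty)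
    (F : Fin m → Finset ι) (Y : ι → Finset (Fin n)) (hF : ∀ i, (F i).Nonempty)
    (p : Finset (Fin m) → Fin m → ℚ) (hp : ∀ J : Finset (Fin m), J.card < m → ∑ i ∈ Jᶜ, p J i = 1)
    (hp0 : ∀ J i, 0 ≤ p J i) (T : Finset (Fin n)) (hT : T ∈ cl G Finset.univ) (hd : Dbl ty T)
    (hm : (dt ty T).card < m) : 0 ≤ (-1 : ℚ) ^ (m - (dt ty T).card) *
      ∑ ρ ∈ cl G (lkF G Finset.univ T), (-1 / 2 : ℚ) ^ ρ.card *
        gk ty (fun J i e => p J i * crf (F i) Y e) (dt ty T) ρ := by
  classical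
  have e1 : ∑ ρ ∈ cl G (lkF G Finset.univ T), (-1 / 2 : ℚ) ^ ρ.card *
        gk ty (fun J i e => p J i * crf (F i) Y e) (dt ty T) ρ =
      ∑ i ∈ (dt ty T)ᶜ, p (dt ty T) i / (F i).card * ∑ t ∈ F i, lam (G \ pd G ty i (Y t)) (lkF G Finset.univ T) := by
    have e2 : ∀ i, ∑ t ∈ F i, lam (G \ pd G ty i (Y t)) (lkF G Finset.univ T) =
        ∑ ρ ∈ cl G (lkF G Finset.univ T), (((F i).filter (fun t => Good ty i (Y t) ρ)).card : ℚ) * (-1 / 2) ^ ρ.card := by
      intro i
      have e3 : ∀ t ∈ F i, lam (G \ pd G ty i (Y t)) (lkF G Finset.univ T) =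
          ∑ ρ ∈ (cl G (lkF G Finset.univ T)).filter (fun ρ => Good ty i (Y t) ρ), (-1 / 2 : ℚ) ^ ρ.card := by
        intro t _
        rw [lam, fe, cl_pd hc]
      rw [Finset.sum_congr rfl e3, Finset.sum_comm' (t' := cl G (lkF G Finset.univ T))
        (s' := fun ρ => (F i).filter (fun t => Good ty i (Y t) ρ)) (fun X ρ => by
          rw [Finset.mem_filter, Finset.mem_filter]
          tauto)]
      refine Finset.sum_congr rfl fun ρ _ => ?_
      rw [Finset.sum_const, nsmul_eq_mul]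
    have e4 : ∀ ρ ∈ cl G (lkF G Finset.univ T), (-1 / 2 : ℚ) ^ ρ.card *
        gk ty (fun J i e => p J i * crf (F i) Y e) (dt ty T) ρ = ∑ i ∈ (dt ty T)ᶜ, p (dt ty T) i / (F i).card *
          ((((F i).filter (fun t => Good ty i (Y t) ρ)).card : ℚ) * (-1 / 2) ^ ρ.card) := by
      intro ρ hρ
      rw [gk_avg hc F Y hF p hp hT hρ hm, Finset.mul_sum]
      refine Finset.sum_congr rfl fun i _ => ?_
      ring
    rw [Finset.sum_congr rfl e4, Finset.sum_comm]
    refine Finset.sum_congr rfl fun i _ => ?_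
    rw [e2, Finset.mul_sum]
  rw [e1, Finset.mul_sum]
  refine Finset.sum_nonneg fun i _ => ?_
  have h1 : 0 ≤ (-1 : ℚ) ^ (m - (dt ty T).card) * ∑ t ∈ F i, lam (G \ pd G ty i (Y t)) (lkF G Finset.univ T) := by
    rw [Finset.mul_sum]
    exact Finset.sum_nonneg fun t _ => link_ineq hS hS2 hc T hT hd i (Y t)
  have h2 := mul_nonneg (div_nonneg (hp0 (dt ty T) i) (Nat.cast_nonneg (F i).card)) h1
  refine h2.trans_eq ?_
  ring

/-! ### orders of products of dihedral groups -/

/-- the numbers `N` on the simplices -/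
theorem N_prod {w : Finset (Fin n) → ℕ} {N : Finset (Fin n) → ℚ} (h0 : N ∅ = 1)
    (hmul : ∀ A B : Finset (Fin n), Disjoint A B → G.IsClique ((A ∪ B : Finset (Fin n)) : Set (Fin n)) →
      (∀ a ∈ A, ∀ b ∈ B, w {a, b} = 2) → N (A ∪ B) = N A * N B)
    (hw : ∀ u v, G.Adj u v → ty u ≠ ty v → w {u, v} = 2) {σ : Finset (Fin n)}
    (hσ : G.IsClique (σ : Set (Fin n))) : N σ = ∏ k, N (tp ty σ k) := by
  classical
  have key : ∀ J : Finset (Fin m), N (sb ty σ J) = ∏ k ∈ J, N (tp ty σ k) := by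
    intro J
    induction J using Finset.induction_on with
    | empty =>
      have h1 : sb ty σ (∅ : Finset (Fin m)) = ∅ := by
        rw [Finset.eq_empty_iff_forall_notMem]
        intro v hv
        exact absurd (mem_sb.1 hv).2 (Finset.notMem_empty _)
      rw [h1, h0, Finset.prod_empty]
    | insert k J hk ih =>
      have h1 : sb ty σ (insert k J) = tp ty σ k ∪ sb ty σ J := by
        ext v
        rw [Finset.mem_union, mem_sb, mem_sb, mem_tp, Finset.mem_insert]
        tauto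
      have hd : Disjoint (tp ty σ k) (sb ty σ J) := by
        rw [Finset.disjoint_left]
        intro v hv hv'
        rw [mem_tp] at hv
        rw [mem_sb] at hv'
        exact hk (hv.2 ▸ hv'.2)
      rw [Finset.prod_insert hk, ← ih, h1]
      refine hmul _ _ hd ?_ ?_
      · rw [← h1]
        exact hσ.subset (Finset.coe_subset.2 sb_sub)
      · intro a ha b hb
        rw [mem_tp] at ha
        rw [mem_sb] at hb
        refine hw a b (hσ ha.1 hb.1 ?_) ?_
        · rintro rfl
          exact hk (ha.2 ▸ hb.2)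
        · intro h
          exact hk (by rw [← ha.2, h]; exact hb.2)
  have h2 := key Finset.univ
  have h3 : sb ty σ (Finset.univ : Finset (Fin m)) = σ := by
    ext v
    rw [mem_sb]
    exact ⟨fun h => h.1, fun h => ⟨h, Finset.mem_univ _⟩⟩
  rwa [h3] at h2

/-- one term of the weighted sum -/
theorem term_eq {w : Finset (Fin n) → ℕ} {N : Finset (Fin n) → ℚ} (hc : NoMono G ty)
    (h0 : N ∅ = 1) (h1 : ∀ v, N {v} = 2)
    (h2 : ∀ u v, G.Adj u v → N {u, v} = 2 * w {u, v})
    (hmul : ∀ A B : Finset (Fin n), Disjoint A B → G.IsClique ((A ∪ B : Finset (Fin n)) : Set (Fin n)) →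
      (∀ a ∈ A, ∀ b ∈ B, w {a, b} = 2) → N (A ∪ B) = N A * N B)
    (hw : ∀ u v, G.Adj u v → ty u ≠ ty v → w {u, v} = 2) {σ : Finset (Fin n)}
    (hσ : σ ∈ cl G Finset.univ) : (-1 : ℚ) ^ σ.card / N σ =
      (-1 / 2 : ℚ) ^ σ.card * dl ty (fun e => 2 / (w e : ℚ)) σ := by
  classical
  have hcl := (mem_cl_univ σ).1 hσ
  have hth := thin_of hc hσ
  have e1 : σ.card = ∑ k, (tp ty σ k).card :=
    Finset.card_eq_sum_card_fiberwise (s := σ) (t := Finset.univ) (f := ty)
      fun x _ => Finset.mem_coe.2 (Finset.mem_univ _)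
  have e2 : dl ty (fun e => 2 / (w e : ℚ)) σ = ∏ k,
      if k ∈ dt ty σ then 2 / (w (tp ty σ k) : ℚ) else 1 := by
    rw [dl, Finset.prod_ite_mem, Finset.univ_inter]
  rw [N_prod h0 hmul hw hcl, e2, e1, ← Finset.prod_pow_eq_pow_sum, ← Finset.prod_pow_eq_pow_sum,
    ← Finset.prod_div_distrib, ← Finset.prod_mul_distrib]
  refine Finset.prod_congr rfl fun k _ => ?_
  have h3 := hth k
  by_cases h4 : k ∈ dt ty σ
  · rw [if_pos h4, mem_dt.1 h4]
    obtain ⟨u, v, huv, he⟩ := Finset.card_eq_two.1 (mem_dt.1 h4)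
    have hu : u ∈ tp ty σ k := by rw [he]; simp
    have hv : v ∈ tp ty σ k := by rw [he]; simp
    rw [he, h2 u v (hcl (mem_tp.1 hu).1 (mem_tp.1 hv).1 huv)]
    rcases eq_or_ne ((w {u, v} : ℕ) : ℚ) 0 with h5 | h5
    · rw [h5]; norm_num
    · field_simp
  · rw [if_neg h4, mul_one]
    rw [mem_dt] at h4
    have h5 : (tp ty σ k).card = 0 ∨ (tp ty σ k).card = 1 := by omega
    rcases h5 with h5 | h5
    · rw [h5, Finset.card_eq_zero.1 h5, h0]
      norm_num
    · obtain ⟨v, hv⟩ := Finset.card_eq_one.1 h5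
      rw [h5, hv, h1]
      norm_num

/-- **the weighted inequality** -/
theorem weighted {ι : Type} {w : Finset (Fin n) → ℕ} {N : Finset (Fin n) → ℚ} (hS : HSph (2 * m) G)
    (hS2 : HSph2 (2 * m) G) (hc : NoMono G ty)
    (h0 : N ∅ = 1) (h1 : ∀ v, N {v} = 2)
    (h2 : ∀ u v, G.Adj u v → N {u, v} = 2 * w {u, v})
    (hmul : ∀ A B : Finset (Fin n), Disjoint A B → G.IsClique ((A ∪ B : Finset (Fin n)) : Set (Fin n)) →
      (∀ a ∈ A, ∀ b ∈ B, w {a, b} = 2) → N (A ∪ B) = N A * N B)
    (hw : ∀ u v, G.Adj u v → ty u ≠ ty v → w {u, v} = 2)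
    (F : Fin m → Finset ι) (Y : ι → Finset (Fin n)) (hF : ∀ i, (F i).Nonempty)
    (a : Fin m → ℚ) (ha : ∀ i, 0 < a i) (ha1 : ∑ i, a i ≤ 1)
    (hw2 : ∀ u v, G.Adj u v → ty u = ty v → 2 / (w {u, v} : ℚ) ≤ a (ty u) * crf (F (ty u)) Y {u, v}) :
    0 ≤ (-1 : ℚ) ^ m * ∑ σ ∈ cl G Finset.univ, (-1 : ℚ) ^ σ.card / N σ := by
  have e1 : ∑ σ ∈ cl G Finset.univ, (-1 : ℚ) ^ σ.card / N σ = ∑ σ ∈ cl G Finset.univ,
      (-1 / 2 : ℚ) ^ σ.card * dl ty (fun e => 2 / (w e : ℚ)) σ :=
    Finset.sum_congr rfl fun σ hσ => term_eq hc h0 h1 h2 hmul hw hσ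
  rw [e1]
  have hs0 : ∀ J : Finset (Fin m), 0 ≤ ∑ k ∈ Jᶜ, a k := fun J => Finset.sum_nonneg fun k _ => (ha k).le
  have hs1 : ∀ J : Finset (Fin m), ∑ k ∈ Jᶜ, a k ≤ 1 := fun J =>
    (Finset.sum_le_sum_of_subset_of_nonneg (Finset.subset_univ _) fun k _ _ => (ha k).le).trans ha1
  have hpos : ∀ J : Finset (Fin m), ∀ i ∉ J, 0 < ∑ k ∈ Jᶜ, a k := fun J i hi =>
    Finset.sum_pos (fun k _ => ha k) ⟨i, Finset.mem_compl.2 hi⟩
  refine comb (fun σ hσ => thin_of hc hσ) _ (fun J i e => (a i / ∑ k ∈ Jᶜ, a k) * crf (F i) Y e) ?_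
    (fun T hT hd hm => link_avg hS hS2 hc F Y hF (fun J i => a i / ∑ k ∈ Jᶜ, a k) ?_ ?_ T hT hd hm)
  · intro σ hσ i hi
    refine ⟨by positivity, fun J hJ => ?_⟩
    obtain ⟨u, v, huv, he⟩ := Finset.card_eq_two.1 (mem_dt.1 hi)
    have hu : u ∈ tp ty σ i := by rw [he]; simp
    have hv : v ∈ tp ty σ i := by rw [he]; simp
    rw [mem_tp] at hu hv
    have h3 := hw2 u v ((mem_cl.1 hσ).2 u hu.1 v hv.1 huv) (hu.2.trans hv.2.symm)
    rw [hu.2] at h3
    rw [he]
    refine h3.trans (mul_le_mul_of_nonneg_right ?_ (by rw [crf]; positivity))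
    rw [le_div_iff₀ (hpos J i hJ)]
    exact mul_le_of_le_one_right (ha i).le (hs1 J)
  · intro J hJ
    have h3 : Jᶜ.Nonempty := by
      rw [← Finset.card_pos, Finset.card_compl, Fintype.card_fin]
      omega
    obtain ⟨i, hi⟩ := h3
    rw [← Finset.sum_div, div_self (hpos J i (Finset.mem_compl.1 hi)).ne']
  · intro J i
    exact div_nonneg (ha i).le (hs0 J)

end Pool.Agent.W2helper25.BW
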